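import Mathlib

/-!
# No exponential orthonormal basis for overlapping symmetric additive spaces

We prove, for every `t ∈ [-1/2, 0)`, that `L²(μ_t)` with
`μ_t = m_{[t,t+1]} ⊗ δ₀ + δ₀ ⊗ m_{[t,t+1]}` has no orthonormal basis of (normalised) exponentials.
-/

open MeasureTheory Filter Topology
open scoped ENNReal BigOperators ComplexConjugate InnerProductSpace

noncomputable section

namespace Pool.Agent.Results.MP_476b1b_an.NoExponentialBasis

/-- The measure `μ_t = m_{[t,t+1]} ⊗ δ₀ + δ₀ ⊗ m_{[t,t+1]}` on `ℝ²`. -/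
def muT (t : ℝ) : Measure (ℝ × ℝ) :=
  (volume.restrict (Set.Icc t (t + 1))).prod (Measure.dirac 0) +
    (Measure.dirac 0).prod (volume.restrict (Set.Icc t (t + 1)))

instance (t : ℝ) : IsFiniteMeasure (muT t) := by unfold muT; infer_instance

/-- The exponential `e_λ(x, y) = exp(2π i (λ₁ x + λ₂ y))`. -/
def expo (l : ℝ × ℝ) (p : ℝ × ℝ) : ℂ :=
  Complex.exp (2 * Real.pi * Complex.I * ((l.1 * p.1 + l.2 * p.2 : ℝ) : ℂ))

lemma expo_memLp (t : ℝ) (l : ℝ × ℝ) : MemLp (expo l) 2 (muT t) := by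
  apply MemLp.of_bound (C := 1)
  · apply Continuous.aestronglyMeasurable
    unfold expo
    fun_prop
  · filter_upwards with p
    unfold expo
    rw [show (2 * Real.pi * Complex.I * ((l.1 * p.1 + l.2 * p.2 : ℝ) : ℂ))
      = ((2 * Real.pi * (l.1 * p.1 + l.2 * p.2) : ℝ) : ℂ) * Complex.I by push_cast; ring,
      Complex.norm_exp_ofReal_mul_I]

/-- The normalised exponential `e_λ / √2` as an element of `L²(μ_t)`. -/
def expoL2 (t : ℝ) (l : ℝ × ℝ) : Lp ℂ 2 (muT t) :=
  ((1 / Real.sqrt 2 : ℝ) : ℂ) • (expo_memLp t l).toLp (expo l)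

/-- `E(Λ)`, after normalisation, is an orthonormal basis of `L²(μ_t)`: it is an orthonormal family
whose closed linear span is the whole space. -/
def IsExponentialBasis (t : ℝ) (Λ : Set (ℝ × ℝ)) : Prop :=
  Orthonormal ℂ (fun l : Λ => expoL2 t l) ∧
    (Submodule.span ℂ (Set.range fun l : Λ => expoL2 t l)).topologicalClosure = ⊤

section Analysis

/-- `∫_t^{t+1} e^{2π i u x} dx = e^{2π i u (t+1/2)} sinc(π u)`. -/
lemma integral_expo (t u : ℝ) :
    ∫ x in Set.Icc t (t + 1), Complex.exp (2 * Real.pi * Complex.I * ((u * x : ℝ) : ℂ))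
      = Complex.exp (2 * Real.pi * Complex.I * ((u * (t + 1 / 2) : ℝ) : ℂ))
        * (Real.sinc (Real.pi * u) : ℝ) := by
  by_cases hu : u = 0
  · subst hu
    simp
  · rw [integral_Icc_eq_integral_Ioc, ← intervalIntegral.integral_of_le (by linarith)]
    have hc : (2 * Real.pi * Complex.I * u : ℂ) ≠ 0 := by
      simp [hu, Real.pi_ne_zero]
    have h1 : ∀ x : ℝ, Complex.exp (2 * Real.pi * Complex.I * ((u * x : ℝ) : ℂ))
        = Complex.exp ((2 * Real.pi * Complex.I * u : ℂ) * x) := by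
      intro x; congr 1; push_cast; ring
    simp_rw [h1]
    rw [integral_exp_mul_complex hc]
    have hpu : Real.pi * u ≠ 0 := mul_ne_zero Real.pi_ne_zero hu
    rw [Real.sinc_of_ne_zero hpu]
    have hpuc : (Real.pi : ℂ) * u ≠ 0 := by exact_mod_cast hpu
    have h2 : Complex.exp ((2 * Real.pi * Complex.I * u : ℂ) * ((t + 1 : ℝ) : ℂ))
        = Complex.exp (2 * Real.pi * Complex.I * ((u * (t + 1 / 2) : ℝ) : ℂ))
          * Complex.exp (((Real.pi * u : ℝ) : ℂ) * Complex.I) := by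
      rw [← Complex.exp_add]; congr 1; push_cast; ring
    have h3 : Complex.exp ((2 * Real.pi * Complex.I * u : ℂ) * (t : ℂ))
        = Complex.exp (2 * Real.pi * Complex.I * ((u * (t + 1 / 2) : ℝ) : ℂ))
          * Complex.exp (-((Real.pi * u : ℝ) : ℂ) * Complex.I) := by
      rw [← Complex.exp_add]; congr 1; push_cast; ring
    rw [h2, h3, ← mul_sub]
    have h4 : Complex.exp (((Real.pi * u : ℝ) : ℂ) * Complex.I)
        - Complex.exp (-((Real.pi * u : ℝ) : ℂ) * Complex.I)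
        = 2 * Complex.I * ((Real.sin (Real.pi * u) : ℝ) : ℂ) := by
      rw [Complex.ofReal_sin, Complex.sin]
      have hI : Complex.I * Complex.I = -1 := Complex.I_mul_I
      linear_combination (-(Complex.exp (-((Real.pi * u : ℝ) : ℂ) * Complex.I) -
        Complex.exp (((Real.pi * u : ℝ) : ℂ) * Complex.I))) * hI
    rw [h4]
    push_cast
    field_simp

/-- For bounded measurable integrands, `∫ F dμ_t = ∫_I F(x,0) dx + ∫_I F(0,y) dy`. -/
lemma integral_muT (t : ℝ) {F : ℝ × ℝ → ℂ} (hF : Measurable F) (C : ℝ) (hC : ∀ p, ‖F p‖ ≤ C) :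
    ∫ p, F p ∂(muT t) = (∫ x in Set.Icc t (t + 1), F (x, 0)) + ∫ y in Set.Icc t (t + 1), F (0, y) := by
  have hint : ∀ ν : Measure (ℝ × ℝ), IsFiniteMeasure ν → Integrable F ν := by
    intro ν _
    exact Integrable.of_bound hF.aestronglyMeasurable C (by filter_upwards with p using hC p)
  unfold muT
  rw [integral_add_measure (hint _ inferInstance) (hint _ inferInstance),
    Measure.prod_dirac, Measure.dirac_prod,
    integral_map (by fun_prop) hF.aestronglyMeasurable,
    integral_map (by fun_prop) hF.aestronglyMeasurable]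

/-- The test functions `g_ξ = (e^{2π i ξ x}, 0)`. -/
def gx (ξ : ℝ) (p : ℝ × ℝ) : ℂ :=
  Set.indicator {q : ℝ × ℝ | q.2 = 0}
    (fun q => Complex.exp (2 * Real.pi * Complex.I * ((ξ * q.1 : ℝ) : ℂ))) p

lemma norm_e (a : ℝ) : ‖Complex.exp (2 * Real.pi * Complex.I * (a : ℂ))‖ = 1 := by
  rw [show (2 * Real.pi * Complex.I * (a : ℂ)) = ((2 * Real.pi * a : ℝ) : ℂ) * Complex.I by
    push_cast; ring, Complex.norm_exp_ofReal_mul_I]

lemma gx_meas (ξ : ℝ) : Measurable (gx ξ) := by
  unfold gx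
  apply Measurable.indicator
  · fun_prop
  · exact measurable_snd (measurableSet_singleton 0)

lemma gx_norm (ξ : ℝ) (p : ℝ × ℝ) : ‖gx ξ p‖ ≤ 1 := by
  unfold gx
  apply (norm_indicator_le_norm_self _ _).trans
  rw [norm_e]

lemma gx_memLp (t ξ : ℝ) : MemLp (gx ξ) 2 (muT t) :=
  MemLp.of_bound (gx_meas ξ).aestronglyMeasurable 1 (by filter_upwards with p using gx_norm ξ p)

lemma expo_meas (l : ℝ × ℝ) : Measurable (expo l) := by unfold expo; fun_prop

lemma expo_norm (l p : ℝ × ℝ) : ‖expo l p‖ ≤ 1 := by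
  unfold expo; rw [norm_e]

lemma inner_toLp (t : ℝ) {f g : ℝ × ℝ → ℂ} (hf : MemLp f 2 (muT t)) (hg : MemLp g 2 (muT t)) :
    ⟪hf.toLp f, hg.toLp g⟫_ℂ = ∫ p, conj (f p) * g p ∂(muT t) := by
  rw [L2.inner_def]
  apply integral_congr_ae
  filter_upwards [hf.coeFn_toLp, hg.coeFn_toLp] with p h1 h2
  rw [h1, h2, RCLike.inner_apply, mul_comm]

lemma conj_e (a : ℝ) : conj (Complex.exp (2 * Real.pi * Complex.I * (a : ℂ)))
    = Complex.exp (2 * Real.pi * Complex.I * ((-a : ℝ) : ℂ)) := by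
  rw [← Complex.exp_conj]
  congr 1
  simp only [map_mul, Complex.conj_ofReal, Complex.conj_I]
  rw [show (starRingEnd ℂ) 2 = 2 from Complex.conj_ofNat 2]
  push_cast; ring

lemma inner_gx_gx (t ξ η : ℝ) :
    ⟪(gx_memLp t ξ).toLp (gx ξ), (gx_memLp t η).toLp (gx η)⟫_ℂ
      = Complex.exp (2 * Real.pi * Complex.I * (((η - ξ) * (t + 1 / 2) : ℝ) : ℂ))
        * (Real.sinc (Real.pi * (η - ξ)) : ℝ) := by
  rw [inner_toLp, integral_muT t (C := 1)]
  · rw [← integral_expo]
    have h1 : ∫ y in Set.Icc t (t + 1), conj (gx ξ (0, y)) * gx η (0, y) = 0 := by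
      apply integral_eq_zero_of_ae
      have : ∀ᵐ y : ℝ ∂(volume.restrict (Set.Icc t (t + 1))), y ≠ 0 := by
        apply ae_restrict_of_ae
        exact (Measure.ae_ne volume 0)
      filter_upwards [this] with y hy
      simp [gx, hy]
    rw [h1, add_zero]
    congr 1
    ext x
    simp only [gx, Set.mem_ofPred_eq, Set.indicator_of_mem]
    rw [conj_e, ← Complex.exp_add]
    congr 1
    push_cast; ring
  · exact (Complex.continuous_conj.measurable.comp (gx_meas ξ)).mul (gx_meas η)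
  · intro p
    rw [norm_mul, RCLike.norm_conj]
    have := gx_norm ξ p
    have := gx_norm η p
    nlinarith [norm_nonneg (gx ξ p), norm_nonneg (gx η p)]

lemma inner_expo_gx (t : ℝ) (l : ℝ × ℝ) (ξ : ℝ) :
    ⟪(expo_memLp t l).toLp (expo l), (gx_memLp t ξ).toLp (gx ξ)⟫_ℂ
      = Complex.exp (2 * Real.pi * Complex.I * (((ξ - l.1) * (t + 1 / 2) : ℝ) : ℂ))
        * (Real.sinc (Real.pi * (ξ - l.1)) : ℝ) := by
  rw [inner_toLp, integral_muT t (C := 1)]
  · rw [← integral_expo]
    have h1 : ∫ y in Set.Icc t (t + 1), conj (expo l (0, y)) * gx ξ (0, y) = 0 := by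
      apply integral_eq_zero_of_ae
      have : ∀ᵐ y : ℝ ∂(volume.restrict (Set.Icc t (t + 1))), y ≠ 0 := by
        apply ae_restrict_of_ae
        exact (Measure.ae_ne volume 0)
      filter_upwards [this] with y hy
      simp [gx, hy]
    rw [h1, add_zero]
    congr 1
    ext x
    simp only [gx, expo, Set.mem_ofPred_eq, Set.indicator_of_mem]
    rw [conj_e, ← Complex.exp_add]
    congr 1
    push_cast; ring
  · exact (Complex.continuous_conj.measurable.comp (expo_meas l)).mul (gx_meas ξ)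
  · intro p
    rw [norm_mul, RCLike.norm_conj]
    have := expo_norm l p
    have := gx_norm ξ p
    nlinarith [norm_nonneg (expo l p), norm_nonneg (gx ξ p)]

lemma inner_expo_expo (t : ℝ) (l m : ℝ × ℝ) :
    ⟪(expo_memLp t l).toLp (expo l), (expo_memLp t m).toLp (expo m)⟫_ℂ
      = Complex.exp (2 * Real.pi * Complex.I * (((m.1 - l.1) * (t + 1 / 2) : ℝ) : ℂ))
        * (Real.sinc (Real.pi * (m.1 - l.1)) : ℝ)
        + Complex.exp (2 * Real.pi * Complex.I * (((m.2 - l.2) * (t + 1 / 2) : ℝ) : ℂ))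
        * (Real.sinc (Real.pi * (m.2 - l.2)) : ℝ) := by
  rw [inner_toLp, integral_muT t (C := 1)]
  · rw [← integral_expo, ← integral_expo]
    congr 1
    · congr 1
      ext x
      simp only [expo]
      rw [conj_e, ← Complex.exp_add]
      congr 1
      push_cast; ring
    · congr 1
      ext x
      simp only [expo]
      rw [conj_e, ← Complex.exp_add]
      congr 1
      push_cast; ring
  · exact (Complex.continuous_conj.measurable.comp (expo_meas l)).mul (expo_meas m)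
  · intro p
    rw [norm_mul, RCLike.norm_conj]
    have := expo_norm l p
    have := expo_norm m p
    nlinarith [norm_nonneg (expo l p), norm_nonneg (expo m p)]

end Analysis

section Sinc

lemma sinc_abs (x : ℝ) : Real.sinc |x| = Real.sinc x := by
  rcases abs_cases x with ⟨h, _⟩ | ⟨h, _⟩ <;> rw [h]
  exact Real.sinc_neg x

/-- `sinc` is strictly decreasing on `[0, π]`. -/
lemma sinc_lt {x y : ℝ} (hx : 0 ≤ x) (hxy : x < y) (hy : y ≤ Real.pi) :
    Real.sinc y < Real.sinc x := by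
  have hy0 : 0 < y := lt_of_le_of_lt hx hxy
  rcases hx.eq_or_lt with rfl | hx0
  · rw [Real.sinc_zero, Real.sinc_of_ne_zero hy0.ne', div_lt_one hy0]
    exact Real.sin_lt hy0
  · rw [Real.sinc_of_ne_zero hy0.ne', Real.sinc_of_ne_zero hx0.ne', div_lt_div_iff₀ hy0 hx0]
    have ha : 0 < 1 - x / y := by rw [sub_pos, div_lt_one hy0]; exact hxy
    have hb : 0 < x / y := by positivity
    have h := strictConcaveOn_sin_Icc.2 (show (0 : ℝ) ∈ Set.Icc 0 Real.pi from
      ⟨le_refl _, Real.pi_pos.le⟩) (show y ∈ Set.Icc 0 Real.pi from ⟨hy0.le, hy⟩) hy0.ne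
      ha hb (by ring)
    simp only [smul_eq_mul, mul_zero, zero_add, Real.sin_zero] at h
    rw [div_mul_cancel₀ x hy0.ne'] at h
    have := mul_lt_mul_of_pos_right h hy0
    calc Real.sin y * x = x / y * Real.sin y * y := by field_simp
      _ < Real.sin x * y := this

lemma sinc_inj {x y : ℝ} (hx : 0 ≤ x) (hx' : x ≤ Real.pi) (hy : 0 ≤ y) (hy' : y ≤ Real.pi)
    (h : Real.sinc x = Real.sinc y) : x = y := by
  rcases lt_trichotomy x y with h1 | h1 | h1
  · have := sinc_lt hx h1 hy'; linarith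
  · exact h1
  · have := sinc_lt hy h1 hx'; linarith

lemma sinc_two_thirds : 1 / Real.pi < Real.sinc (Real.pi * (2 / 3)) := by
  have hpi := Real.pi_pos
  rw [Real.sinc_of_ne_zero (by positivity)]
  have h1 : Real.sin (Real.pi * (2 / 3)) = Real.sqrt 3 / 2 := by
    rw [show Real.pi * (2 / 3) = Real.pi - Real.pi / 3 by ring, Real.sin_pi_sub,
      Real.sin_pi_div_three]
  rw [h1, div_lt_div_iff₀ hpi (by positivity)]
  have h3 : (1.7 : ℝ) < Real.sqrt 3 := by
    rw [Real.lt_sqrt (by norm_num)]; norm_num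
  nlinarith

lemma abs_sinc_le {x : ℝ} (hx : x ≠ 0) : |Real.sinc x| ≤ 1 / |x| := by
  rw [Real.sinc_of_ne_zero hx, abs_div]
  exact div_le_div_of_nonneg_right (Real.abs_sin_le_one x) (abs_nonneg x)

/-- The key separation: if the sum of the two phased sinc values vanishes, then `|u| ≥ δ`. -/
lemma separation {s δ : ℝ} (hs : 0 ≤ s) (hδ0 : 0 < δ) (hδ : δ ≤ 2 / 3) (hδs : 4 * (s * δ) ≤ 1)
    {u v : ℝ} (h : Complex.exp (2 * Real.pi * Complex.I * ((u * s : ℝ) : ℂ))
        * (Real.sinc (Real.pi * u) : ℝ)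
        + Complex.exp (2 * Real.pi * Complex.I * ((v * s : ℝ) : ℂ))
        * (Real.sinc (Real.pi * v) : ℝ) = 0) : δ ≤ |u| := by
  by_contra hlt
  push Not at hlt
  have hpi := Real.pi_pos
  have habs : |Real.sinc (Real.pi * u)| = |Real.sinc (Real.pi * v)| := by
    have h1 := eq_neg_of_add_eq_zero_left h
    have h2 := congrArg norm h1
    rw [norm_neg, norm_mul, norm_mul, norm_e, norm_e, one_mul, one_mul, Complex.norm_real,
      Complex.norm_real] at h2
    exact h2
  have hu_abs : Real.sinc (Real.pi * u) = Real.sinc (Real.pi * |u|) := by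
    rw [← sinc_abs (Real.pi * u), abs_mul, abs_of_pos hpi]
  have hv_abs : Real.sinc (Real.pi * v) = Real.sinc (Real.pi * |v|) := by
    rw [← sinc_abs (Real.pi * v), abs_mul, abs_of_pos hpi]
  have hσu : 1 / Real.pi < Real.sinc (Real.pi * u) := by
    rw [hu_abs]
    have h0 : Real.pi * |u| < Real.pi * (2 / 3) := by
      apply mul_lt_mul_of_pos_left _ hpi; linarith
    have := sinc_lt (x := Real.pi * |u|) (y := Real.pi * (2 / 3)) (by positivity) h0
      (by nlinarith)
    linarith [sinc_two_thirds]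
  have hσu0 : 0 < Real.sinc (Real.pi * u) := lt_trans (by positivity) hσu
  have hv1 : |v| < 1 := by
    by_contra hv
    push Not at hv
    have hv0 : Real.pi * v ≠ 0 := by
      intro h0
      have : v = 0 := by
        rcases mul_eq_zero.mp h0 with h | h
        · exact absurd h hpi.ne'
        · exact h
      rw [this] at hv; simp at hv; linarith
    have h1 := abs_sinc_le hv0
    rw [← habs, abs_of_pos hσu0, abs_mul, abs_of_pos hpi] at h1
    have h2 : 1 / (Real.pi * |v|) ≤ 1 / Real.pi := by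
      apply one_div_le_one_div_of_le hpi
      nlinarith
    linarith
  have hσv0 : 0 < Real.sinc (Real.pi * v) := by
    rw [hv_abs]
    rcases (abs_nonneg v).eq_or_lt with h0 | h0
    · rw [← h0]; simp
    · rw [Real.sinc_of_ne_zero (by positivity)]
      apply div_pos _ (by positivity)
      apply Real.sin_pos_of_pos_of_lt_pi (by positivity)
      nlinarith
  rw [abs_of_pos hσu0, abs_of_pos hσv0] at habs
  have huv : |u| = |v| := by
    rw [hu_abs, hv_abs] at habs
    have := sinc_inj (by positivity) (by nlinarith) (by positivity) (by nlinarith) habs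
    exact mul_left_cancel₀ hpi.ne' this
  rw [← habs, ← add_mul] at h
  have hσc : ((Real.sinc (Real.pi * u) : ℝ) : ℂ) ≠ 0 := by exact_mod_cast hσu0.ne'
  have hsum := (mul_eq_zero.mp h).resolve_right hσc
  rcases abs_eq_abs.mp huv with h1 | h1
  · rw [h1, ← two_mul] at hsum
    exact (mul_ne_zero two_ne_zero (Complex.exp_ne_zero _)) hsum
  · have hv' : v = -u := by linarith
    rw [hv'] at hsum
    have hcos : Complex.exp (2 * Real.pi * Complex.I * ((u * s : ℝ) : ℂ))
        + Complex.exp (2 * Real.pi * Complex.I * ((-u * s : ℝ) : ℂ))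
        = ((2 * Real.cos (2 * Real.pi * (u * s)) : ℝ) : ℂ) := by
      push_cast
      rw [Complex.cos]
      rw [show (2 * Real.pi * Complex.I * (u * s) : ℂ) = 2 * Real.pi * (u * s) * Complex.I by ring,
        show (2 * Real.pi * Complex.I * (-u * s) : ℂ) = -(2 * Real.pi * (u * s)) * Complex.I by ring]
      ring
    rw [hcos] at hsum
    have h2 : 2 * Real.cos (2 * Real.pi * (u * s)) = 0 := by exact_mod_cast hsum
    have h3 : 0 < Real.cos (2 * Real.pi * (u * s)) := by
      rw [← Real.cos_abs]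
      apply Real.cos_pos_of_mem_Ioo
      have h4 : |2 * Real.pi * (u * s)| = 2 * Real.pi * (|u| * s) := by
        rw [abs_mul, abs_mul u s, abs_of_pos (by positivity : (0:ℝ) < 2 * Real.pi), abs_of_nonneg hs]
      rw [h4]
      constructor
      · have : 0 ≤ 2 * Real.pi * (|u| * s) := by positivity
        linarith
      · rcases hs.eq_or_lt with h5 | h5
        · rw [← h5]; simp; linarith
        · have h6 : |u| * s < δ * s := mul_lt_mul_of_pos_right hlt h5
          nlinarith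
    linarith

end Sinc

section Counting

lemma tail_bound (s : Finset ℝ) (hs : ∀ a ∈ s, ∀ b ∈ s, a ≠ b → 1 / 2 < |a - b|) {n : ℕ}
    (hn : 1 ≤ n) (h : ∀ a ∈ s, (n : ℝ) < a) : ∑ a ∈ s, 1 / a ^ 2 ≤ 4 / (n : ℝ) := by
  let m : ℝ → ℕ := fun a => ⌊2 * a⌋₊
  have hn' : (1 : ℝ) ≤ n := by exact_mod_cast hn
  have hinj : Set.InjOn m s := by
    intro a ha b hb hab
    by_contra hne
    have h1 := hs a ha b hb hne
    have ha0 : 0 ≤ 2 * a := by have := h a ha; linarith
    have hb0 : 0 ≤ 2 * b := by have := h b hb; linarith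
    have h2 := Nat.floor_le ha0
    have h3 := Nat.lt_floor_add_one (2 * a)
    have h4 := Nat.floor_le hb0
    have h5 := Nat.lt_floor_add_one (2 * b)
    have hab' : ((⌊2 * a⌋₊ : ℕ) : ℝ) = ⌊2 * b⌋₊ := by exact_mod_cast hab
    have : |a - b| < 1 / 2 := by
      rw [abs_lt]; constructor <;> linarith
    linarith
  have hm : ∀ a ∈ s, 2 * n ≤ m a := by
    intro a ha
    apply Nat.le_floor
    push_cast
    have := h a ha; linarith
  calc ∑ a ∈ s, 1 / a ^ 2 ≤ ∑ a ∈ s, 4 * ((m a : ℝ) ^ 2)⁻¹ := by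
        apply Finset.sum_le_sum
        intro a ha
        have ha0 : 0 < a := by have := h a ha; linarith
        have hma : (0 : ℝ) < m a := by
          have := hm a ha
          have h2 : 0 < m a := by omega
          exact_mod_cast h2
        have h2 : (m a : ℝ) ≤ 2 * a := Nat.floor_le (by linarith)
        rw [one_div, ← div_eq_mul_inv, inv_eq_one_div, div_le_div_iff₀ (by positivity) (by positivity)]
        nlinarith
    _ = 4 * ∑ a ∈ s, ((m a : ℝ) ^ 2)⁻¹ := by rw [Finset.mul_sum]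
    _ = 4 * ∑ k ∈ s.image m, ((k : ℝ) ^ 2)⁻¹ := by rw [Finset.sum_image hinj]
    _ ≤ 4 * ∑ k ∈ Finset.Ioo (2 * n - 1) ((s.image m).sup id + 1), ((k : ℝ) ^ 2)⁻¹ := by
        apply mul_le_mul_of_nonneg_left _ (by norm_num)
        apply Finset.sum_le_sum_of_subset_of_nonneg
        · intro k hk
          rw [Finset.mem_Ioo]
          obtain ⟨a, ha, rfl⟩ := Finset.mem_image.mp hk
          have h1 := hm a ha
          have h2 : m a ≤ (s.image m).sup id := Finset.le_sup (f := id) hk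
          constructor
          · omega
          · omega
        · intro i _ _; positivity
    _ ≤ 4 * (2 / (((2 * n - 1 : ℕ) : ℝ) + 1)) := by
        apply mul_le_mul_of_nonneg_left _ (by norm_num)
        exact sum_Ioo_inv_sq_le _ _
    _ = 4 / n := by
        have : ((2 * n - 1 : ℕ) : ℝ) = 2 * n - 1 := by
          rw [Nat.cast_sub (by omega)]; push_cast; ring
        rw [this]
        field_simp
        ring

lemma card_bound (s : Finset ℝ) {δ : ℝ} (hδ : 0 < δ)
    (hs : ∀ a ∈ s, ∀ b ∈ s, a ≠ b → δ ≤ |a - b|) {u v : ℝ} (huv : u ≤ v)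
    (h : ∀ a ∈ s, u ≤ a ∧ a ≤ v) : (s.card : ℝ) ≤ (v - u) / δ + 1 := by
  let m : ℝ → ℕ := fun a => ⌊(a - u) / δ⌋₊
  have hinj : Set.InjOn m s := by
    intro a ha b hb hab
    by_contra hne
    have h1 := hs a ha b hb hne
    have ha0 : 0 ≤ (a - u) / δ := div_nonneg (by linarith [(h a ha).1]) hδ.le
    have hb0 : 0 ≤ (b - u) / δ := div_nonneg (by linarith [(h b hb).1]) hδ.le
    have h2 := Nat.floor_le ha0
    have h3 := Nat.lt_floor_add_one ((a - u) / δ)
    have h4 := Nat.floor_le hb0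
    have h5 := Nat.lt_floor_add_one ((b - u) / δ)
    have hab' : ((⌊(a - u) / δ⌋₊ : ℕ) : ℝ) = ⌊(b - u) / δ⌋₊ := by exact_mod_cast hab
    have h6 : (a - b) / δ < 1 := by
      have : (a - b) / δ = (a - u) / δ - (b - u) / δ := by ring
      linarith
    have h7 : -1 < (a - b) / δ := by
      have : (a - b) / δ = (a - u) / δ - (b - u) / δ := by ring
      linarith
    rw [div_lt_one hδ] at h6
    rw [lt_div_iff₀ hδ] at h7
    have : |a - b| < δ := by rw [abs_lt]; constructor <;> linarith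
    linarith
  have hsub : s.image m ⊆ Finset.range (⌊(v - u) / δ⌋₊ + 1) := by
    intro k hk
    obtain ⟨a, ha, rfl⟩ := Finset.mem_image.mp hk
    rw [Finset.mem_range, Nat.lt_succ_iff]
    apply Nat.floor_le_floor
    apply div_le_div_of_nonneg_right _ hδ.le
    linarith [(h a ha).2]
  have h1 : s.card ≤ ⌊(v - u) / δ⌋₊ + 1 := by
    rw [← Finset.card_image_of_injOn hinj]
    simpa using Finset.card_le_card hsub
  have h2 : (⌊(v - u) / δ⌋₊ : ℝ) ≤ (v - u) / δ :=
    Nat.floor_le (div_nonneg (by linarith) hδ.le)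
  have h3 : (s.card : ℝ) ≤ (⌊(v - u) / δ⌋₊ : ℝ) + 1 := by exact_mod_cast h1
  linarith

/-- the window sum `W(a) = ∑_{k<K} sinc²(π (k - a))`. -/
def W (K : ℕ) (a : ℝ) : ℝ := ∑ k ∈ Finset.range K, Real.sinc (Real.pi * (k - a)) ^ 2

lemma sinc_sq_le {u : ℝ} (hu : u ≠ 0) : Real.sinc (Real.pi * u) ^ 2 ≤ 1 / (9 * u ^ 2) := by
  have hpi := Real.pi_gt_three
  have h1 := abs_sinc_le (x := Real.pi * u) (mul_ne_zero Real.pi_ne_zero hu)
  have h2 : Real.sinc (Real.pi * u) ^ 2 ≤ (1 / |Real.pi * u|) ^ 2 := by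
    rw [← sq_abs]
    exact pow_le_pow_left₀ (abs_nonneg _) h1 2
  refine h2.trans ?_
  rw [div_pow, one_pow, sq_abs, mul_pow]
  apply one_div_le_one_div_of_le (by positivity)
  have h9 : 9 ≤ Real.pi ^ 2 := by nlinarith
  exact mul_le_mul_of_nonneg_right h9 (by positivity)

lemma W_right {K : ℕ} {a : ℝ} (ha : (K : ℝ) < a) : W K a ≤ K / 9 * (1 / (a - K) ^ 2) := by
  unfold W
  calc ∑ k ∈ Finset.range K, Real.sinc (Real.pi * (k - a)) ^ 2
      ≤ ∑ _k ∈ Finset.range K, 1 / (9 * (a - K) ^ 2) := by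
        apply Finset.sum_le_sum
        intro k hk
        have hk' : (k : ℝ) < K := by exact_mod_cast Finset.mem_range.mp hk
        refine (sinc_sq_le (by linarith : (k : ℝ) - a ≠ 0)).trans ?_
        apply one_div_le_one_div_of_le
        · have : 0 < a - K := by linarith
          positivity
        · nlinarith
    _ = K / 9 * (1 / (a - K) ^ 2) := by
        rw [Finset.sum_const, Finset.card_range, nsmul_eq_mul]
        have : a - K ≠ 0 := by linarith
        field_simp

lemma W_left {K : ℕ} {a : ℝ} (ha : a < 0) : W K a ≤ K / 9 * (1 / (-a) ^ 2) := by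
  unfold W
  calc ∑ k ∈ Finset.range K, Real.sinc (Real.pi * (k - a)) ^ 2
      ≤ ∑ _k ∈ Finset.range K, 1 / (9 * (-a) ^ 2) := by
        apply Finset.sum_le_sum
        intro k hk
        have hk' : (0 : ℝ) ≤ k := Nat.cast_nonneg k
        have hne : (k : ℝ) - a ≠ 0 := by linarith
        refine (sinc_sq_le hne).trans ?_
        have hna : 0 < -a := by linarith
        apply one_div_le_one_div_of_le
        · positivity
        · nlinarith
    _ = K / 9 * (1 / (-a) ^ 2) := by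
        rw [Finset.sum_const, Finset.card_range, nsmul_eq_mul]
        have : a ≠ 0 := ha.ne
        field_simp

lemma sum_W_le {δ : ℝ} (hδ : 1 / 2 < δ) {n : ℕ} (hn : 1 ≤ n)
    (hW1 : ∀ a, W (n ^ 2) a ≤ 1) (s : Finset ℝ)
    (hs : ∀ a ∈ s, ∀ b ∈ s, a ≠ b → δ ≤ |a - b|) :
    ∑ a ∈ s, W (n ^ 2) a ≤ ((n : ℝ) ^ 2 + 2 * n) / δ + 1 + n := by
  classical
  have hn' : (1 : ℝ) ≤ n := by exact_mod_cast hn
  let s1 := s.filter (fun a => ((n ^ 2 : ℕ) : ℝ) + n < a)
  let s2 := (s.filter (fun a => ¬ (((n ^ 2 : ℕ) : ℝ) + n < a))).filter (fun a => a < -(n : ℝ))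
  let s3 := (s.filter (fun a => ¬ (((n ^ 2 : ℕ) : ℝ) + n < a))).filter (fun a => ¬ (a < -(n : ℝ)))
  have hsplit : ∑ a ∈ s, W (n ^ 2) a = ∑ a ∈ s1, W (n ^ 2) a + (∑ a ∈ s2, W (n ^ 2) a
      + ∑ a ∈ s3, W (n ^ 2) a) := by
    rw [Finset.sum_filter_add_sum_filter_not, Finset.sum_filter_add_sum_filter_not]
  have hsep : ∀ a ∈ s, ∀ b ∈ s, a ≠ b → 1 / 2 < |a - b| := fun a ha b hb hab =>
    lt_of_lt_of_le hδ (hs a ha b hb hab)
  have hcast : ((n ^ 2 : ℕ) : ℝ) = (n : ℝ) ^ 2 := by push_cast; ring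
  have hnn : (n : ℝ) ^ 2 / 9 * (4 / n) ≤ n / 2 := by
    have : (n : ℝ) ^ 2 / 9 * (4 / n) = 4 * n / 9 := by field_simp
    rw [this]; linarith
  have h1 : ∑ a ∈ s1, W (n ^ 2) a ≤ n / 2 := by
    have hmem : ∀ a ∈ s1, a ∈ s ∧ ((n ^ 2 : ℕ) : ℝ) + n < a := fun a ha => Finset.mem_filter.mp ha
    calc ∑ a ∈ s1, W (n ^ 2) a
        ≤ ∑ a ∈ s1, ((n ^ 2 : ℕ) : ℝ) / 9 * (1 / (a - ((n ^ 2 : ℕ) : ℝ)) ^ 2) := by
          apply Finset.sum_le_sum
          intro a ha
          apply W_right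
          have := (hmem a ha).2
          linarith
      _ = ((n ^ 2 : ℕ) : ℝ) / 9 * ∑ b ∈ s1.image (fun a => a - ((n ^ 2 : ℕ) : ℝ)), 1 / b ^ 2 := by
          rw [← Finset.mul_sum, Finset.sum_image]
          intro a _ b _ hab
          simpa using hab
      _ ≤ ((n ^ 2 : ℕ) : ℝ) / 9 * (4 / n) := by
          apply mul_le_mul_of_nonneg_left _ (by positivity)
          apply tail_bound _ _ hn
          · intro b hb
            obtain ⟨a, ha, rfl⟩ := Finset.mem_image.mp hb
            have := (hmem a ha).2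
            linarith
          · intro b hb b' hb' hne
            obtain ⟨a, ha, rfl⟩ := Finset.mem_image.mp hb
            obtain ⟨a', ha', rfl⟩ := Finset.mem_image.mp hb'
            have hne' : a ≠ a' := fun h => hne (by rw [h])
            have := hsep a (hmem a ha).1 a' (hmem a' ha').1 hne'
            simpa using this
      _ ≤ n / 2 := by rw [hcast]; exact hnn
  have h2 : ∑ a ∈ s2, W (n ^ 2) a ≤ n / 2 := by
    have hmem : ∀ a ∈ s2, a ∈ s ∧ a < -(n : ℝ) := fun a ha =>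
      ⟨(Finset.mem_filter.mp (Finset.mem_filter.mp ha).1).1, (Finset.mem_filter.mp ha).2⟩
    calc ∑ a ∈ s2, W (n ^ 2) a
        ≤ ∑ a ∈ s2, ((n ^ 2 : ℕ) : ℝ) / 9 * (1 / (-a) ^ 2) := by
          apply Finset.sum_le_sum
          intro a ha
          apply W_left
          have := (hmem a ha).2
          linarith
      _ = ((n ^ 2 : ℕ) : ℝ) / 9 * ∑ b ∈ s2.image (fun a => -a), 1 / b ^ 2 := by
          rw [← Finset.mul_sum, Finset.sum_image]
          intro a _ b _ hab
          simpa using hab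
      _ ≤ ((n ^ 2 : ℕ) : ℝ) / 9 * (4 / n) := by
          apply mul_le_mul_of_nonneg_left _ (by positivity)
          apply tail_bound _ _ hn
          · intro b hb
            obtain ⟨a, ha, rfl⟩ := Finset.mem_image.mp hb
            have := (hmem a ha).2
            linarith
          · intro b hb b' hb' hne
            obtain ⟨a, ha, rfl⟩ := Finset.mem_image.mp hb
            obtain ⟨a', ha', rfl⟩ := Finset.mem_image.mp hb'
            have hne' : a ≠ a' := fun h => hne (by rw [h])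
            have := hsep a (hmem a ha).1 a' (hmem a' ha').1 hne'
            rw [abs_sub_comm] at this
            rw [show -a - -a' = a' - a by ring]
            exact this
      _ ≤ n / 2 := by rw [hcast]; exact hnn
  have h3 : ∑ a ∈ s3, W (n ^ 2) a ≤ ((n : ℝ) ^ 2 + 2 * n) / δ + 1 := by
    have hmem : ∀ a ∈ s3, a ∈ s ∧ -(n : ℝ) ≤ a ∧ a ≤ (n : ℝ) ^ 2 + n := by
      intro a ha
      have h1 := Finset.mem_filter.mp ha
      have h2 := Finset.mem_filter.mp h1.1
      refine ⟨h2.1, not_lt.mp h1.2, ?_⟩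
      have := not_lt.mp h2.2
      rw [hcast] at this; exact this
    calc ∑ a ∈ s3, W (n ^ 2) a ≤ ∑ _a ∈ s3, (1 : ℝ) := Finset.sum_le_sum fun a _ => hW1 a
      _ = s3.card := by simp
      _ ≤ ((n : ℝ) ^ 2 + n - (-(n : ℝ))) / δ + 1 := by
          apply card_bound s3 (by linarith) _ (by nlinarith)
          · intro a ha; exact (hmem a ha).2
          · intro a ha b hb hab; exact hs a (hmem a ha).1 b (hmem b hb).1 hab
      _ = ((n : ℝ) ^ 2 + 2 * n) / δ + 1 := by ring
  rw [hsplit]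
  linarith

end Counting

section Final

lemma norm_gx (t ξ : ℝ) : ‖(gx_memLp t ξ).toLp (gx ξ)‖ = 1 := by
  have h := inner_gx_gx t ξ ξ
  rw [inner_self_eq_norm_sq_to_K] at h
  simp only [sub_self, zero_mul, Complex.ofReal_zero, mul_zero, Complex.exp_zero, Real.sinc_zero,
    Complex.ofReal_one, mul_one] at h
  have h2 : ‖(gx_memLp t ξ).toLp (gx ξ)‖ ^ 2 = 1 := by
    have h3 := congrArg Complex.re h
    rw [← RCLike.ofReal_pow] at h3
    exact h3
  exact (pow_eq_one_iff_of_nonneg (norm_nonneg _) (by norm_num)).mp h2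

lemma sinc_pi_int {k l : ℕ} (h : k ≠ l) : Real.sinc (Real.pi * ((k : ℝ) - l)) = 0 := by
  have hne : (k : ℝ) - l ≠ 0 := by
    rw [sub_ne_zero]; exact_mod_cast h
  rw [Real.sinc_of_ne_zero (mul_ne_zero Real.pi_ne_zero hne)]
  have : Real.sin (Real.pi * ((k : ℝ) - l)) = 0 := by
    rw [show Real.pi * ((k : ℝ) - l) = ((k - l : ℤ) : ℝ) * Real.pi by push_cast; ring]
    exact Real.sin_int_mul_pi _
  rw [this, zero_div]

lemma W_le_one (t : ℝ) (K : ℕ) (a : ℝ) : W K a ≤ 1 := by
  have hon : Orthonormal ℂ (fun k : ℕ => (gx_memLp t (k : ℝ)).toLp (gx (k : ℝ))) := by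
    constructor
    · intro k; exact norm_gx t k
    · intro k l hkl
      rw [inner_gx_gx, sinc_pi_int (Ne.symm hkl)]
      simp
  have h := hon.sum_inner_products_le (s := Finset.range K) ((gx_memLp t a).toLp (gx a))
  rw [norm_gx, one_pow] at h
  refine le_trans (le_of_eq ?_) h
  unfold W
  apply Finset.sum_congr rfl
  intro k _
  rw [inner_gx_gx, norm_mul, norm_e, one_mul, Complex.norm_real, Real.norm_eq_abs, sq_abs,
    ← Real.sinc_neg]
  congr 2
  ring

/-- A suitable separation constant. -/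
lemma exists_delta {s : ℝ} (hs2 : s < 1 / 2) :
    ∃ δ : ℝ, 1 / 2 < δ ∧ δ ≤ 2 / 3 ∧ 4 * (s * δ) ≤ 1 := by
  by_cases h : s ≤ 3 / 8
  · exact ⟨2 / 3, by norm_num, le_refl _, by linarith⟩
  · push Not at h
    have hs0 : 0 < s := by linarith
    refine ⟨1 / (4 * s), ?_, ?_, ?_⟩
    · rw [div_lt_div_iff₀ (by norm_num) (by positivity)]; linarith
    · rw [div_le_div_iff₀ (by positivity) (by norm_num)]; linarith
    · field_simp; linarith

lemma sep_of_basis {t δ : ℝ} (ht : -1 / 2 ≤ t) (hδ0 : 0 < δ) (hδ : δ ≤ 2 / 3)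
    (hδs : 4 * ((t + 1 / 2) * δ) ≤ 1) {Λ : Set (ℝ × ℝ)}
    (hon : Orthonormal ℂ (fun l : Λ => expoL2 t l)) {l m : ℝ × ℝ} (hl : l ∈ Λ) (hm : m ∈ Λ)
    (hlm : l ≠ m) : δ ≤ |m.1 - l.1| := by
  have h := hon.2 (i := ⟨l, hl⟩) (j := ⟨m, hm⟩) (by simpa using hlm)
  simp only at h
  unfold expoL2 at h
  rw [inner_smul_left, inner_smul_right, inner_expo_expo] at h
  have hne : ((1 / Real.sqrt 2 : ℝ) : ℂ) ≠ 0 := by
    have : (1 / Real.sqrt 2 : ℝ) ≠ 0 := by positivity
    exact_mod_cast this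
  rw [Complex.conj_ofReal] at h
  have h2 := (mul_eq_zero.mp ((mul_eq_zero.mp h).resolve_left hne)).resolve_left hne
  exact separation (by linarith) hδ0 hδ hδs h2

lemma parseval {t : ℝ} {Λ : Set (ℝ × ℝ)} (hb : IsExponentialBasis t Λ) (ξ : ℝ) :
    HasSum (fun l : Λ => Real.sinc (Real.pi * (ξ - (l : ℝ × ℝ).1)) ^ 2) 2 := by
  obtain ⟨hon, hspan⟩ := hb
  let b := HilbertBasis.mk hon (ge_of_eq hspan)
  have h := b.hasSum_inner_mul_inner ((gx_memLp t ξ).toLp (gx ξ)) ((gx_memLp t ξ).toLp (gx ξ))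
  rw [inner_self_eq_norm_sq_to_K, norm_gx] at h
  have hterm : ∀ l : Λ, ⟪(gx_memLp t ξ).toLp (gx ξ), b l⟫_ℂ * ⟪b l, (gx_memLp t ξ).toLp (gx ξ)⟫_ℂ
      = ((1 / 2 * Real.sinc (Real.pi * (ξ - (l : ℝ × ℝ).1)) ^ 2 : ℝ) : ℂ) := by
    intro l
    have hbl : b l = expoL2 t l := by
      have := congrFun (HilbertBasis.coe_mk hon (ge_of_eq hspan)) l
      exact this
    rw [← inner_conj_symm, RCLike.conj_mul, hbl]
    unfold expoL2
    rw [inner_smul_left, inner_expo_gx, norm_mul, norm_mul, norm_e, RCLike.norm_conj,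
      Complex.norm_real, Complex.norm_real, one_mul]
    have h2 : (‖(1 / Real.sqrt 2 : ℝ)‖ * ‖Real.sinc (Real.pi * (ξ - (l : ℝ × ℝ).1))‖) ^ 2
        = 1 / 2 * Real.sinc (Real.pi * (ξ - (l : ℝ × ℝ).1)) ^ 2 := by
      rw [mul_pow, Real.norm_eq_abs, Real.norm_eq_abs, sq_abs, sq_abs, div_pow,
        Real.sq_sqrt (by norm_num)]
      norm_num
    rw [← h2]
    exact (Complex.ofReal_pow _ 2).symm
  simp_rw [hterm] at h
  have h3 : HasSum (fun l : Λ => 1 / 2 * Real.sinc (Real.pi * (ξ - (l : ℝ × ℝ).1)) ^ 2) 1 := by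
    have : ((1 : ℝ) : ℂ) = ((RCLike.ofReal 1 : ℂ)) ^ 2 := by simp
    rw [← this] at h
    exact Complex.hasSum_ofReal.mp h
  have h4 := h3.mul_left 2
  simpa [← mul_assoc] using h4

end Final

/-- **Affirmative answer to MP_476b1b_an, Q1.** For every `t ∈ [-1/2, 0)` there is no set
`Λ ⊂ ℝ²` whose normalised exponentials form an orthonormal basis of `L²(μ_t)`. -/
theorem result (t : ℝ) (ht : -1 / 2 ≤ t) (ht0 : t < 0) :
    ¬ ∃ Λ : Set (ℝ × ℝ), IsExponentialBasis t Λ := by
  rintro ⟨Λ, hb⟩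
  obtain ⟨δ, hδ1, hδ2, hδs⟩ := exists_delta (s := t + 1 / 2) (by linarith)
  have hδ0 : 0 < δ := by linarith
  have hinv : 1 / δ < 2 := by
    rw [div_lt_iff₀ hδ0]; linarith
  -- main inequality
  have key : ∀ n : ℕ, 1 ≤ n → 2 * (n : ℝ) ^ 2 ≤ ((n : ℝ) ^ 2 + 2 * n) / δ + 1 + n := by
    intro n hn
    have hsum : HasSum (fun l : Λ => W (n ^ 2) (l : ℝ × ℝ).1) (2 * (n : ℝ) ^ 2) := by
      have h1 := hasSum_sum (s := Finset.range (n ^ 2))
        (fun (k : ℕ) (_ : k ∈ Finset.range (n ^ 2)) => parseval hb (k : ℝ))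
      simp only [Finset.sum_const, Finset.card_range, nsmul_eq_mul] at h1
      have h2 : ((n ^ 2 : ℕ) : ℝ) * 2 = 2 * (n : ℝ) ^ 2 := by push_cast; ring
      rw [h2] at h1
      exact h1
    apply hasSum_le_of_sum_le hsum
    intro s
    classical
    have hinj : Set.InjOn (fun l : Λ => (l : ℝ × ℝ).1) (s : Set Λ) := by
      intro l _ m _ hlm
      by_contra hne
      have hne' : (l : ℝ × ℝ) ≠ m := fun h => hne (Subtype.ext h)
      have := sep_of_basis ht hδ0 hδ2 hδs hb.1 l.2 m.2 hne'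
      simp only at hlm
      rw [hlm] at this
      simp at this
      linarith
    rw [← Finset.sum_image (f := fun a => W (n ^ 2) a) (g := fun l : Λ => (l : ℝ × ℝ).1) hinj]
    apply sum_W_le hδ1 hn (W_le_one t (n ^ 2))
    intro a ha b hb' hab
    obtain ⟨l, _, rfl⟩ := Finset.mem_image.mp ha
    obtain ⟨m, _, rfl⟩ := Finset.mem_image.mp hb'
    have hne : (m : ℝ × ℝ) ≠ l := fun h => hab (by rw [h])
    exact sep_of_basis ht hδ0 hδ2 hδs hb.1 m.2 l.2 hne
  -- contradiction
  obtain ⟨N, hN⟩ := exists_nat_gt (6 / (2 - 1 / δ))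
  have hpos : 0 < 2 - 1 / δ := by linarith
  rw [div_lt_iff₀ hpos] at hN
  have hN1 : 1 ≤ N := by
    by_contra h
    have : N = 0 := by omega
    subst this
    simp at hN
    linarith
  have h1 := key N hN1
  have hN1' : (1 : ℝ) ≤ N := by exact_mod_cast hN1
  have h2 : ((N : ℝ) ^ 2 + 2 * N) / δ = (N : ℝ) ^ 2 * (1 / δ) + 2 * N * (1 / δ) := by
    field_simp
  rw [h2] at h1
  have h3 : 2 * (N : ℝ) * (1 / δ) ≤ 2 * N * 2 := by
    apply mul_le_mul_of_nonneg_left hinv.le (by positivity)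
  have h4 : (N : ℝ) * ((N : ℝ) * (2 - 1 / δ)) ≤ 6 * N := by nlinarith
  have h5 : 6 * (N : ℝ) < N * (N * (2 - 1 / δ)) := by nlinarith
  linarith

end Pool.Agent.Results.MP_476b1b_an.NoExponentialBasis
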